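import Pool.Agent.H65BC.Defs

/-!
General facts on cylindrical transformations over rotations of the circle.
-/

set_option autoImplicit false

namespace Pool.Agent.H65BC

open Filter Topology

variable {α : ℝ} {φ : C(Circ, ℝ)}

/-- Birkhoff sums -/
noncomputable def bs (α : ℝ) (φ : C(Circ, ℝ)) (n : ℤ) (x : Circ) : ℝ := ((cyl α φ ^ n) (x, 0)).2

theorem cyl_apply (p : Circ × ℝ) : cyl α φ p = (p.1 + (α : Circ), p.2 + φ p.1) := rfl

theorem cyl_inv_apply (p : Circ × ℝ) :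
    (cyl α φ)⁻¹ p = (p.1 - (α : Circ), p.2 - φ (p.1 - (α : Circ))) := rfl

theorem cyl_zpow (n : ℤ) : ∀ (x : Circ) (y : ℝ),
    (cyl α φ ^ n) (x, y) = (x + n • (α : Circ), y + bs α φ n x) := by
  induction n using Int.induction_on with
  | zero => intro x y; simp [bs]
  | succ n ih =>
    intro x y
    have h : ∀ y : ℝ, (cyl α φ ^ ((n : ℤ) + 1)) (x, y) =
        (x + (α : Circ) + (n : ℤ) • (α : Circ), y + φ x + bs α φ n (x + (α : Circ))) := by
      intro y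
      rw [zpow_add_one]
      show (cyl α φ ^ (n : ℤ)) (cyl α φ (x, y)) = _
      rw [cyl_apply, ih]
    unfold bs
    rw [h y, h 0]
    refine Prod.ext ?_ ?_
    · simp only [add_smul, one_smul]; abel
    · simp only; ring
  | pred n ih =>
    intro x y
    have h : ∀ y : ℝ, (cyl α φ ^ (-(n : ℤ) - 1)) (x, y) =
        (x - (α : Circ) + (-(n : ℤ)) • (α : Circ),
          y - φ (x - (α : Circ)) + bs α φ (-(n : ℤ)) (x - (α : Circ))) := by
      intro y
      rw [zpow_sub_one]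
      show (cyl α φ ^ (-(n : ℤ))) ((cyl α φ)⁻¹ (x, y)) = _
      rw [cyl_inv_apply, ih]
    unfold bs
    rw [h y, h 0]
    refine Prod.ext ?_ ?_
    · simp only [sub_smul, one_smul]; abel
    · simp only; ring

theorem bs_add (m n : ℤ) (x : Circ) :
    bs α φ (m + n) x = bs α φ n x + bs α φ m (x + n • (α : Circ)) := by
  have h : (cyl α φ ^ (m + n)) (x, 0) = (cyl α φ ^ m) ((cyl α φ ^ n) (x, 0)) := by
    rw [zpow_add]; rfl
  have h2 := congrArg Prod.snd h
  rw [cyl_zpow, cyl_zpow, cyl_zpow] at h2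
  simpa using h2

theorem bs_zero (x : Circ) : bs α φ 0 x = 0 := by simp [bs]

theorem bs_one (x : Circ) : bs α φ 1 x = φ x := by
  unfold bs
  rw [zpow_one, cyl_apply]
  simp

theorem continuous_bs (n : ℤ) : Continuous (bs α φ n) := by
  unfold bs
  exact continuous_snd.comp ((cyl α φ ^ n).continuous.comp (by fun_prop))

theorem bs_move (n j : ℤ) (x : Circ) :
    bs α φ n (x + j • (α : Circ)) =
      bs α φ n x + bs α φ j (x + n • (α : Circ)) - bs α φ j x := by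
  have h1 := bs_add (α := α) (φ := φ) n j x
  have h2 := bs_add (α := α) (φ := φ) j n x
  rw [add_comm] at h1
  linarith

/-- the basic point of transitivity -/
theorem trans_point (hα : Irrational α)
    (H : ∀ R δ : ℝ, 0 < δ → ∃ n : ℤ, ‖n • (α : Circ)‖ < δ ∧
      (∃ x, bs α φ n x ≤ -R) ∧ ∃ x, R ≤ bs α φ n x)
    (x₁ x₂ : Circ) (y₁ y₂ ε : ℝ) (hε : 0 < ε) :
    ∃ (n : ℤ) (x : Circ), ‖x - x₁‖ < ε ∧ ‖x + n • (α : Circ) - x₂‖ < ε ∧
      |y₁ + bs α φ n x - y₂| < ε := by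
  have hd : DenseRange (fun n : ℤ => n • (α : Circ)) :=
    AddCircle.denseRange_zsmul_coe_iff.2 (by simpa using hα)
  have hd' : ∀ (u v : Circ) (δ : ℝ), 0 < δ → ∃ n : ℤ, ‖u + n • (α : Circ) - v‖ < δ := by
    intro u v δ hδ
    obtain ⟨n, hn⟩ := hd.exists_dist_lt (v - u) hδ
    refine ⟨n, ?_⟩
    rw [dist_comm, dist_eq_norm] at hn
    have e : u + n • (α : Circ) - v = n • (α : Circ) - (v - u) := by abel
    rw [e]
    exact hn
  obtain ⟨p, hp⟩ := hd' x₁ x₂ (ε / 2) (by positivity)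
  set r : ℝ := y₂ - y₁ - bs α φ p x₁ with hr
  -- approximating times
  have hex : ∀ i : ℕ, ∃ (n : ℤ) (x : Circ), ‖n • (α : Circ)‖ < 1 / ((i : ℝ) + 1) ∧
      bs α φ n x = r := by
    intro i
    obtain ⟨n, hn, ⟨u, hu⟩, ⟨v, hv⟩⟩ := H |r| (1 / ((i : ℝ) + 1)) (by positivity)
    have h1 : bs α φ n u ≤ r := hu.trans (neg_abs_le r)
    have h2 : r ≤ bs α φ n v := (le_abs_self r).trans hv
    obtain ⟨x, hx⟩ := mem_range_of_exists_le_of_exists_ge (continuous_bs n) ⟨u, h1⟩ ⟨v, h2⟩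
    exact ⟨n, x, hn, hx⟩
  choose n x hn hx using hex
  obtain ⟨xs, ψ, hψ, hlim⟩ := CompactSpace.tendsto_subseq x
  have hn0 : Tendsto (fun i => n (ψ i) • (α : Circ)) atTop (𝓝 0) := by
    rw [tendsto_zero_iff_norm_tendsto_zero]
    have h1 : Tendsto (fun i : ℕ => 1 / (((ψ i : ℕ) : ℝ) + 1)) atTop (𝓝 0) :=
      tendsto_one_div_add_atTop_nhds_zero_nat.comp hψ.tendsto_atTop
    exact squeeze_zero (fun _ => norm_nonneg _) (fun i => (hn (ψ i)).le) h1
  -- continuity of the sums of length p at x₁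
  obtain ⟨δ, hδ, hcont⟩ := Metric.continuous_iff.1 (continuous_bs (α := α) (φ := φ) p) x₁ (ε / 2)
    (by positivity)
  obtain ⟨j, hj⟩ := hd' xs x₁ (min δ (ε / 2)) (by positivity)
  set zs : Circ := xs + j • (α : Circ) with hzs
  have hz : Tendsto (fun i => x (ψ i) + j • (α : Circ)) atTop (𝓝 zs) := hlim.add_const _
  have hb1 : Tendsto (fun i => bs α φ (n (ψ i)) (x (ψ i) + j • (α : Circ))) atTop (𝓝 r) := by
    have e : ∀ i, bs α φ (n (ψ i)) (x (ψ i) + j • (α : Circ)) =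
        r + bs α φ j (x (ψ i) + n (ψ i) • (α : Circ)) - bs α φ j (x (ψ i)) := by
      intro i
      rw [bs_move, hx]
    simp only [e]
    have h1 : Tendsto (fun i => bs α φ j (x (ψ i) + n (ψ i) • (α : Circ))) atTop
        (𝓝 (bs α φ j (xs + 0))) :=
      ((continuous_bs j).tendsto _).comp (hlim.add hn0)
    have h2 : Tendsto (fun i => bs α φ j (x (ψ i))) atTop (𝓝 (bs α φ j xs)) :=
      ((continuous_bs j).tendsto _).comp hlim
    have h3 := (h1.const_add r).sub h2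
    rw [add_zero] at h3
    simpa using h3
  have hb2 : Tendsto (fun i => bs α φ (p + n (ψ i)) (x (ψ i) + j • (α : Circ))) atTop
      (𝓝 (r + bs α φ p zs)) := by
    have h1 : Tendsto (fun i => bs α φ p (x (ψ i) + j • (α : Circ) + n (ψ i) • (α : Circ))) atTop
        (𝓝 (bs α φ p (zs + 0))) :=
      ((continuous_bs p).tendsto _).comp (hz.add hn0)
    rw [add_zero] at h1
    simp only [bs_add p]
    exact hb1.add h1
  have hz2 : Tendsto (fun i => x (ψ i) + j • (α : Circ) + (p + n (ψ i)) • (α : Circ)) atTop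
      (𝓝 (zs + p • (α : Circ))) := by
    have h1 := (hz.add hn0).add_const (p • (α : Circ))
    rw [add_zero] at h1
    refine h1.congr fun i => ?_
    rw [add_smul]; abel
  -- strict inequalities at the limit
  have hzx : ‖zs - x₁‖ < min δ (ε / 2) := hj
  have s1 : ‖zs - x₁‖ < ε := by
    have := min_le_right δ (ε / 2)
    linarith
  have s2 : ‖zs + p • (α : Circ) - x₂‖ < ε := by
    have e : zs + p • (α : Circ) - x₂ = (zs - x₁) + (x₁ + p • (α : Circ) - x₂) := by abel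
    rw [e]
    have h1 := norm_add_le (zs - x₁) (x₁ + p • (α : Circ) - x₂)
    have := min_le_right δ (ε / 2)
    linarith
  have s3 : |y₁ + (r + bs α φ p zs) - y₂| < ε := by
    have h1 := hcont zs (by
      rw [dist_eq_norm]
      exact hzx.trans_le (min_le_left _ _))
    rw [Real.dist_eq] at h1
    have e : y₁ + (r + bs α φ p zs) - y₂ = bs α φ p zs - bs α φ p x₁ := by
      rw [hr]; ring
    rw [e]
    linarith
  have t1 : Tendsto (fun i => ‖x (ψ i) + j • (α : Circ) - x₁‖) atTop (𝓝 ‖zs - x₁‖) :=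
    (hz.sub_const _).norm
  have t2 : Tendsto (fun i => ‖x (ψ i) + j • (α : Circ) + (p + n (ψ i)) • (α : Circ) - x₂‖) atTop
      (𝓝 ‖zs + p • (α : Circ) - x₂‖) := (hz2.sub_const _).norm
  have t3 : Tendsto (fun i => |y₁ + bs α φ (p + n (ψ i)) (x (ψ i) + j • (α : Circ)) - y₂|) atTop
      (𝓝 |y₁ + (r + bs α φ p zs) - y₂|) := ((hb2.const_add y₁).sub_const y₂).abs
  obtain ⟨i, h1, h2, h3⟩ := ((t1.eventually_lt_const s1).and
    ((t2.eventually_lt_const s2).and (t3.eventually_lt_const s3))).exists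
  exact ⟨p + n (ψ i), x (ψ i) + j • (α : Circ), h1, h2, h3⟩

theorem exists_dense (hα : Irrational α)
    (H : ∀ R δ : ℝ, 0 < δ → ∃ n : ℤ, ‖n • (α : Circ)‖ < δ ∧
      (∃ x, bs α φ n x ≤ -R) ∧ ∃ x, R ≤ bs α φ n x) :
    ∃ p : Circ × ℝ, Dense (orb α φ p) := by
  -- transitivity on open sets
  have key : ∀ U V : Set (Circ × ℝ), IsOpen U → IsOpen V → U.Nonempty → V.Nonempty →
      ∃ n : ℤ, ∃ u ∈ U, (cyl α φ ^ n) u ∈ V := by
    rintro U V hU hV ⟨⟨x₁, y₁⟩, hu⟩ ⟨⟨x₂, y₂⟩, hv⟩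
    obtain ⟨ε₁, h1, hB1⟩ := Metric.isOpen_iff.1 hU _ hu
    obtain ⟨ε₂, h2, hB2⟩ := Metric.isOpen_iff.1 hV _ hv
    obtain ⟨n, x, hx1, hx2, hx3⟩ := trans_point (φ := φ) hα H x₁ x₂ y₁ y₂ (min ε₁ ε₂) (lt_min h1 h2)
    refine ⟨n, (x, y₁), hB1 ?_, ?_⟩
    · rw [Metric.mem_ball, Prod.dist_eq, max_lt_iff]
      refine ⟨?_, by simpa using h1⟩
      rw [dist_eq_norm]
      exact hx1.trans_le (min_le_left _ _)
    · apply hB2
      rw [cyl_zpow, Metric.mem_ball, Prod.dist_eq, max_lt_iff, dist_eq_norm, Real.dist_eq]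
      exact ⟨hx2.trans_le (min_le_right _ _), hx3.trans_le (min_le_right _ _)⟩
  obtain ⟨b, hbc, hbne, hb⟩ := TopologicalSpace.exists_countable_basis (Circ × ℝ)
  have hopen : ∀ V ∈ b, IsOpen (⋃ n : ℤ, (cyl α φ ^ n) ⁻¹' V) := by
    intro V hV
    exact isOpen_iUnion fun n => (hb.isOpen hV).preimage (cyl α φ ^ n).continuous
  have hdense : ∀ V ∈ b, Dense (⋃ n : ℤ, (cyl α φ ^ n) ⁻¹' V) := by
    intro V hV
    rw [dense_iff_inter_open]
    intro U hU hne
    have hVne : V.Nonempty := by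
      rw [Set.nonempty_iff_ne_empty]
      rintro rfl
      exact hbne hV
    obtain ⟨n, u, hu, hv⟩ := key U V hU (hb.isOpen hV) hne hVne
    exact ⟨u, hu, Set.mem_iUnion.2 ⟨n, hv⟩⟩
  have hres := dense_biInter_of_isOpen hopen hbc hdense
  obtain ⟨p, hp⟩ := hres.nonempty
  refine ⟨p, ?_⟩
  rw [dense_iff_inter_open]
  rintro U hU ⟨u, hu⟩
  obtain ⟨V, hV, huV, hVU⟩ := hb.exists_subset_of_mem_open hu hU
  have h1 := Set.mem_iInter₂.1 hp V hV
  obtain ⟨n, hn⟩ := Set.mem_iUnion.1 h1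
  exact ⟨_, hVU hn, ⟨n, rfl⟩⟩

theorem discrete_of_tendsto (x : Circ) (y : ℝ)
    (h : ∀ R : ℝ, {n : ℤ | |bs α φ n x| < R}.Finite) (q : Circ × ℝ) :
    ¬ AccPt q (𝓟 (orb α φ (x, y))) := by
  intro hq
  have hfin : (orb α φ (x, y) ∩ (Set.univ ×ˢ Metric.ball q.2 1)).Finite := by
    have h1 := h (|q.2| + |y| + 1)
    refine (h1.image (fun n : ℤ => (cyl α φ ^ n) (x, y))).subset ?_
    rintro z ⟨⟨n, rfl⟩, hz⟩
    refine ⟨n, ?_, rfl⟩
    have h2 := hz.2
    simp only [cyl_zpow, Metric.mem_ball, Real.dist_eq] at h2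
    simp only [Set.mem_ofPred_eq]
    have e : bs α φ n x = (y + bs α φ n x - q.2) + q.2 - y := by ring
    rw [e]
    have h3 := abs_add_le (y + bs α φ n x - q.2 + q.2) (-y)
    have h4 := abs_add_le (y + bs α φ n x - q.2) q.2
    rw [abs_neg, ← sub_eq_add_neg] at h3
    linarith
  have hnhds : (Set.univ ×ˢ Metric.ball q.2 1 : Set (Circ × ℝ)) ∈ 𝓝 q := by
    have : (q.1, q.2) = q := rfl
    rw [← this]
    exact prod_mem_nhds univ_mem (Metric.ball_mem_nhds _ one_pos)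
  have hq2 : AccPt q (𝓟 (orb α φ (x, y) ∩ (Set.univ ×ˢ Metric.ball q.2 1))) := by
    rw [accPt_iff_frequently] at hq ⊢
    refine (hq.and_eventually hnhds).mono ?_
    rintro z ⟨⟨hz1, hz2⟩, hz3⟩
    exact ⟨hz1, hz2, hz3⟩
  exact (Set.Infinite.of_accPt hq2) hfin

end Pool.Agent.H65BC
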