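import Mathlib

/-!
Cylindrical transformations over rotations of the circle: definitions.
-/

set_option autoImplicit false

namespace Pool.Agent.H65BC

/-- The circle `ℝ / ℤ`; its norm `‖x‖` is the distance to `0`. -/
abbrev Circ : Type := AddCircle (1 : ℝ)

/-- The cylindrical transformation `T_φ (x, y) = (x + α, y + φ x)` of `(ℝ / ℤ) × ℝ`. -/
def cyl (α : ℝ) (φ : C(Circ, ℝ)) : (Circ × ℝ) ≃ₜ (Circ × ℝ) where
  toFun p := (p.1 + (α : Circ), p.2 + φ p.1)
  invFun p := (p.1 - (α : Circ), p.2 - φ (p.1 - (α : Circ)))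
  left_inv p := by simp
  right_inv p := by simp
  continuous_toFun := by fun_prop
  continuous_invFun := by fun_prop

/-- The full orbit `{T_φ^n p : n ∈ ℤ}`. -/
def orb (α : ℝ) (φ : C(Circ, ℝ)) (p : Circ × ℝ) : Set (Circ × ℝ) :=
  Set.range fun n : ℤ => (cyl α φ ^ n) p

/-- `T_φ` is Besicovitch: some orbit is dense, and some orbit has no accumulation point. -/
def IsBesicovitch (α : ℝ) (φ : C(Circ, ℝ)) : Prop :=
  (∃ p : Circ × ℝ, Dense (orb α φ p)) ∧
    ∃ p : Circ × ℝ, ∀ q : Circ × ℝ, ¬ AccPt q (Filter.principal (orb α φ p))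

/-- `φ` is `γ`-Hölder continuous. -/
def IsHolderExp (γ : ℝ) (φ : C(Circ, ℝ)) : Prop :=
  ∃ C : ℝ, ∀ x x' : Circ, |φ x - φ x'| ≤ C * ‖x - x'‖ ^ γ

end Pool.Agent.H65BC
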