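import Pool.Agent.H65BC.Defs

set_option autoImplicit false

namespace Pool.Agent.H65BC

open Finset

/-- tent function of width `w` -/
noncomputable def tent (w : ℝ) (x : Circ) : ℝ := max 0 (1 - ‖x‖ / w)

theorem tent_nonneg (w : ℝ) (x : Circ) : 0 ≤ tent w x := le_max_left _ _

theorem tent_le_one {w : ℝ} (hw : 0 < w) (x : Circ) : tent w x ≤ 1 := by
  unfold tent
  apply max_le zero_le_one
  have : 0 ≤ ‖x‖ / w := by positivity
  linarith

theorem tent_zero (w : ℝ) : tent w 0 = 1 := by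
  unfold tent
  simp

theorem tent_eq_zero {w : ℝ} (hw : 0 < w) {x : Circ} (h : w ≤ ‖x‖) : tent w x = 0 := by
  unfold tent
  apply max_eq_left
  have : 1 ≤ ‖x‖ / w := by rwa [one_le_div hw]
  linarith

theorem tent_sub_le {w : ℝ} (hw : 0 < w) (x y : Circ) :
    |tent w x - tent w y| ≤ min 1 (‖x - y‖ / w) := by
  apply le_min
  · rw [abs_le]
    have h1 := tent_nonneg w x
    have h2 := tent_nonneg w y
    have h3 := tent_le_one hw x
    have h4 := tent_le_one hw y
    constructor <;> linarith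
  · unfold tent
    have h := abs_max_sub_max_le_max 0 (1 - ‖x‖ / w) 0 (1 - ‖y‖ / w)
    refine h.trans ?_
    apply max_le
    · simp; positivity
    · have : (1 - ‖x‖ / w) - (1 - ‖y‖ / w) = (‖y‖ - ‖x‖) / w := by ring
      rw [this, abs_div, abs_of_pos hw]
      gcongr
      rw [abs_sub_comm]
      exact abs_norm_sub_norm_le x y

theorem continuous_tent (w : ℝ) : Continuous (tent w) := by
  unfold tent
  fun_prop

theorem min_one_le_rpow {t γ : ℝ} (ht : 0 ≤ t) (hγ : 0 < γ) (hγ1 : γ ≤ 1) : min 1 t ≤ t ^ γ := by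
  rcases le_total 1 t with h | h
  · exact (min_le_left _ _).trans (Real.one_le_rpow h hγ.le)
  · refine (min_le_right _ _).trans ?_
    calc t = t ^ (1 : ℝ) := (Real.rpow_one t).symm
      _ ≤ t ^ γ := by
        rcases ht.eq_or_lt with h0 | h0
        · rw [← h0, Real.zero_rpow hγ.ne', Real.zero_rpow one_ne_zero]
        · exact Real.rpow_le_rpow_of_exponent_ge h0 h hγ1

/-- `a` has separated multiples: `2 w ≤ ‖m a‖` for `0 < |m| ≤ 4 N` -/
def Sep (a : Circ) (N : ℕ) (w : ℝ) : Prop := ∀ m : ℤ, m ≠ 0 → |m| ≤ 4 * N → 2 * w ≤ ‖m • a‖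

section level

variable {a : Circ} {N : ℕ} {w : ℝ}

/-- the index interval -/
noncomputable def ind (N : ℕ) : Finset ℤ := Finset.Icc (-(N + 1 : ℤ)) (N + 1)

/-- weighted sums of bumps along the orbit of `0` -/
noncomputable def bsum (a : Circ) (N : ℕ) (w : ℝ) (c : ℤ → ℝ) (x : Circ) : ℝ :=
  ∑ m ∈ ind N, c m * tent w (x - m • a)

theorem exists_single (hN : 1 ≤ N) (hw : 0 < w) (hs : Sep a N w) (x : Circ) :
    ∃ m₀ ∈ ind N, ∀ m ∈ ind N, m ≠ m₀ → tent w (x - m • a) = 0 := by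
  by_cases h : ∃ m₀ ∈ ind N, tent w (x - m₀ • a) ≠ 0
  · obtain ⟨m₀, hm₀, h0⟩ := h
    refine ⟨m₀, hm₀, fun m hm hne => ?_⟩
    by_contra h1
    have e0 : ‖x - m₀ • a‖ < w := by
      by_contra hh
      exact h0 (tent_eq_zero hw (not_lt.1 hh))
    have e1 : ‖x - m • a‖ < w := by
      by_contra hh
      exact h1 (tent_eq_zero hw (not_lt.1 hh))
    have hd : (m - m₀ : ℤ) ≠ 0 := sub_ne_zero.2 hne
    have hb : |m - m₀| ≤ 4 * N := by
      unfold ind at hm hm₀
      rw [Finset.mem_Icc] at hm hm₀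
      rw [abs_le]
      omega
    have h2 := hs _ hd hb
    have h3 : (m - m₀) • a = (x - m₀ • a) - (x - m • a) := by
      rw [sub_smul]; abel
    rw [h3] at h2
    have h4 := norm_sub_le (x - m₀ • a) (x - m • a)
    linarith
  · push Not at h
    refine ⟨0, ?_, fun m hm _ => h m hm⟩
    unfold ind
    rw [Finset.mem_Icc]
    omega

theorem bsum_single {c : ℤ → ℝ} {x : Circ} {m₀ : ℤ} (h0 : m₀ ∈ ind N)
    (h : ∀ m ∈ ind N, m ≠ m₀ → tent w (x - m • a) = 0) :
    bsum a N w c x = c m₀ * tent w (x - m₀ • a) := by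
  unfold bsum
  apply Finset.sum_eq_single_of_mem m₀ h0
  intro m hm hne
  rw [h m hm hne, mul_zero]

theorem abs_bsum_le (hN : 1 ≤ N) (hw : 0 < w) (hs : Sep a N w) {c : ℤ → ℝ} {B : ℝ}
    (hc : ∀ m, |c m| ≤ B) (x : Circ) : |bsum a N w c x| ≤ B := by
  obtain ⟨m₀, h0, h⟩ := exists_single hN hw hs x
  rw [bsum_single h0 h, abs_mul, abs_of_nonneg (tent_nonneg _ _)]
  have hB : 0 ≤ B := (abs_nonneg _).trans (hc 0)
  calc |c m₀| * tent w (x - m₀ • a) ≤ B * 1 :=
        mul_le_mul (hc _) (tent_le_one hw _) (tent_nonneg _ _) hB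
    _ = B := mul_one B

theorem bsum_sub_le (hN : 1 ≤ N) (hw : 0 < w) (hs : Sep a N w) {c : ℤ → ℝ} {B : ℝ}
    (hc : ∀ m, |c m| ≤ B) (x y : Circ) :
    |bsum a N w c x - bsum a N w c y| ≤ 2 * B * min 1 (‖x - y‖ / w) := by
  obtain ⟨m, hm, h⟩ := exists_single hN hw hs x
  obtain ⟨m', hm', h'⟩ := exists_single hN hw hs y
  have hB : 0 ≤ B := (abs_nonneg _).trans (hc 0)
  have hmin : 0 ≤ min 1 (‖x - y‖ / w) := le_min zero_le_one (by positivity)
  have key : ∀ j : ℤ, |c j| * |tent w (x - j • a) - tent w (y - j • a)| ≤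
      B * min 1 (‖x - y‖ / w) := by
    intro j
    have h1 := tent_sub_le hw (x - j • a) (y - j • a)
    rw [sub_sub_sub_cancel_right] at h1
    exact mul_le_mul (hc j) h1 (abs_nonneg _) hB
  rw [bsum_single hm h, bsum_single hm' h']
  by_cases he : m = m'
  · subst he
    rw [← mul_sub, abs_mul]
    have := key m
    nlinarith [mul_nonneg hB hmin]
  · have e1 : tent w (y - m • a) = 0 := h' m hm he
    have e2 : tent w (x - m' • a) = 0 := h m' hm' (Ne.symm he)
    have k1 := key m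
    have k2 := key m'
    rw [e1, sub_zero, ← abs_mul] at k1
    rw [e2, zero_sub, abs_neg, ← abs_mul] at k2
    have := abs_sub (c m * tent w (x - m • a)) (c m' * tent w (y - m' • a))
    linarith

/-- depth of the bumps -/
noncomputable def dep (A : ℝ) (N : ℕ) (m : ℤ) : ℝ := A * max 0 (1 - |(m : ℝ)| / N)

theorem dep_nonneg {A : ℝ} (hA : 0 ≤ A) (N : ℕ) (m : ℤ) : 0 ≤ dep A N m :=
  mul_nonneg hA (le_max_left _ _)

theorem dep_le {A : ℝ} (hA : 0 ≤ A) (N : ℕ) (m : ℤ) : dep A N m ≤ A := by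
  unfold dep
  have h : max 0 (1 - |(m : ℝ)| / N) ≤ 1 := by
    apply max_le zero_le_one
    have : 0 ≤ |(m : ℝ)| / N := by positivity
    linarith
  nlinarith

theorem dep_zero (A : ℝ) (N : ℕ) : dep A N 0 = A := by
  unfold dep
  simp

theorem dep_eq_zero (A : ℝ) {N : ℕ} (hN : 1 ≤ N) {m : ℤ} (h : (N : ℤ) ≤ |m|) : dep A N m = 0 := by
  unfold dep
  have hN' : (0 : ℝ) < N := by exact_mod_cast hN
  have h1 : (N : ℝ) ≤ |(m : ℝ)| := by exact_mod_cast h
  rw [max_eq_left, mul_zero]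
  have : 1 ≤ |(m : ℝ)| / N := by rwa [one_le_div hN']
  linarith

theorem dep_sub_le {A : ℝ} (hA : 0 ≤ A) {N : ℕ} (hN : 1 ≤ N) (m : ℤ) :
    |dep A N m - dep A N (m + 1)| ≤ A / N := by
  unfold dep
  have hN' : (0 : ℝ) < N := by exact_mod_cast hN
  rw [← mul_sub, abs_mul, abs_of_nonneg hA, div_eq_mul_inv]
  apply mul_le_mul_of_nonneg_left _ hA
  have h := abs_max_sub_max_le_max 0 (1 - |(m : ℝ)| / N) 0 (1 - |((m + 1 : ℤ) : ℝ)| / N)
  refine h.trans (max_le ?_ ?_)
  · simp
  · have : (1 - |(m : ℝ)| / N) - (1 - |((m + 1 : ℤ) : ℝ)| / N) =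
        (|((m + 1 : ℤ) : ℝ)| - |(m : ℝ)|) / N := by ring
    rw [this, abs_div, abs_of_pos hN', div_eq_mul_inv]
    have h2 : |(|((m + 1 : ℤ) : ℝ)| - |(m : ℝ)|)| ≤ 1 := by
      refine (abs_abs_sub_abs_le _ _).trans ?_
      push_cast
      simp
    have h3 : (0 : ℝ) ≤ (N : ℝ)⁻¹ := by positivity
    nlinarith

/-- the transfer function of level `N` -/
noncomputable def gfun (a : Circ) (N : ℕ) (w A : ℝ) (x : Circ) : ℝ :=
  A - bsum a N w (dep A N) x

/-- the cocycle of level `N` -/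
noncomputable def ffun (a : Circ) (N : ℕ) (w A : ℝ) (x : Circ) : ℝ :=
  bsum a N w (fun m => dep A N m - dep A N (m + 1)) x

theorem gfun_shift (hN : 1 ≤ N) (A : ℝ) (x : Circ) :
    gfun a N w A (x + a) - gfun a N w A x = ffun a N w A x := by
  unfold gfun ffun bsum
  have h1 : ∑ m ∈ ind N, dep A N m * tent w (x + a - m • a) =
      ∑ m ∈ ind N, dep A N (m + 1) * tent w (x - m • a) := by
    have h2 : ∀ f : ℤ → ℝ, (∀ m : ℤ, (N : ℤ) ≤ |m| → f m = 0) →
        ∑ m ∈ ind N, f m = ∑ m ∈ ind N, f (m + 1) := by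
      intro f hf
      have e1 : ∑ m ∈ ind N, f m = ∑' m : ℤ, f m := by
        rw [tsum_eq_sum]
        intro m hm
        apply hf
        unfold ind at hm
        rw [Finset.mem_Icc, not_and_or] at hm
        rcases hm with hm | hm
        · rw [le_abs]; right; omega
        · rw [le_abs]; left; omega
      have e2 : ∑ m ∈ ind N, f (m + 1) = ∑' m : ℤ, f (m + 1) := by
        rw [tsum_eq_sum]
        intro m hm
        apply hf
        unfold ind at hm
        rw [Finset.mem_Icc, not_and_or] at hm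
        rcases hm with hm | hm
        · rw [le_abs]; right; omega
        · rw [le_abs]; left; omega
      rw [e1, e2]
      exact ((Equiv.addRight (1 : ℤ)).tsum_eq f).symm
    rw [h2 (fun m => dep A N m * tent w (x + a - m • a))]
    · refine Finset.sum_congr rfl fun m _ => ?_
      congr 2
      rw [add_smul, one_smul]
      abel
    · intro m hm
      rw [dep_eq_zero A hN hm, zero_mul]
  rw [h1]
  simp only [sub_mul, Finset.sum_sub_distrib]
  ring

theorem gfun_nonneg (hN : 1 ≤ N) (hw : 0 < w) (hs : Sep a N w) {A : ℝ} (hA : 0 ≤ A) (x : Circ) :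
    0 ≤ gfun a N w A x := by
  obtain ⟨m₀, h0, h⟩ := exists_single hN hw hs x
  unfold gfun
  rw [bsum_single h0 h]
  have h1 := dep_le hA N m₀
  have h2 := dep_nonneg hA N m₀
  have h3 := tent_le_one hw (x - m₀ • a)
  have h4 := tent_nonneg w (x - m₀ • a)
  nlinarith

theorem gfun_zero (hN : 1 ≤ N) (hw : 0 < w) (hs : Sep a N w) (A : ℝ) :
    gfun a N w A 0 = 0 := by
  unfold gfun
  have h0 : (0 : ℤ) ∈ ind N := by
    unfold ind
    rw [Finset.mem_Icc]; omega
  rw [bsum_single h0, dep_zero]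
  · simp [tent_zero]
  · intro m hm hne
    apply tent_eq_zero hw
    have hb : |m| ≤ 4 * N := by
      unfold ind at hm
      rw [Finset.mem_Icc] at hm
      rw [abs_le]; omega
    have := hs m hne hb
    rw [zero_sub, norm_neg]
    linarith

theorem gfun_orbit (hN : 1 ≤ N) (hw : 0 < w) (hs : Sep a N w) (A : ℝ) {n : ℤ}
    (h1 : (N : ℤ) ≤ |n|) (h2 : |n| < 2 * N) : gfun a N w A (n • a) = A := by
  unfold gfun bsum
  rw [Finset.sum_eq_zero, sub_zero]
  intro m hm
  by_cases hmN : (N : ℤ) ≤ |m|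
  · rw [dep_eq_zero A hN hmN, zero_mul]
  · have hne : n - m ≠ 0 := by
      intro h
      have : n = m := by omega
      subst this
      exact hmN h1
    have hb : |n - m| ≤ 4 * N := by
      push Not at hmN
      have := abs_sub n m
      omega
    have := hs _ hne hb
    rw [tent_eq_zero hw, mul_zero]
    rw [← sub_smul]
    linarith

theorem abs_ffun_le (hN : 1 ≤ N) (hw : 0 < w) (hs : Sep a N w) {A : ℝ} (hA : 0 ≤ A) (x : Circ) :
    |ffun a N w A x| ≤ A / N :=
  abs_bsum_le hN hw hs (fun m => dep_sub_le hA hN m) x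

theorem ffun_sub_le (hN : 1 ≤ N) (hw : 0 < w) (hs : Sep a N w) {A : ℝ} (hA : 0 ≤ A) (x y : Circ) :
    |ffun a N w A x - ffun a N w A y| ≤ 2 * (A / N) * min 1 (‖x - y‖ / w) :=
  bsum_sub_le hN hw hs (fun m => dep_sub_le hA hN m) x y

theorem continuous_ffun (A : ℝ) : Continuous (ffun a N w A) := by
  unfold ffun bsum
  refine continuous_finsetSum _ fun m _ => ?_
  refine continuous_const.mul ((continuous_tent w).comp ?_)
  fun_prop

end level

end Pool.Agent.H65BC
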