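import Pool.Agent.H65BC.Level
import Pool.Agent.H65BC.Cyl

/-!
The Besicovitch cylindrical transformation with a cocycle which is Hölder for every exponent
smaller than `1 / τ`, `τ` the Diophantine exponent of the rotation.
-/

set_option autoImplicit false

namespace Pool.Agent.H65BC

open Filter Topology

section main

variable {α c τ : ℝ}

/-- widths of the bumps -/
noncomputable def wd (c τ : ℝ) (k : ℕ) : ℝ := c / 2 * (4 * 2 ^ k : ℝ) ^ (-τ)

theorem wd_pos (hc : 0 < c) (k : ℕ) : 0 < wd c τ k := by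
  unfold wd
  positivity

theorem sep_wd (hc : 0 < c) (hτ : 0 ≤ τ)
    (hD : ∀ n : ℤ, n ≠ 0 → c * |(n : ℝ)| ^ (-τ) ≤ ‖n • (α : Circ)‖) (k : ℕ) :
    Sep (α : Circ) (2 ^ k) (wd c τ k) := by
  intro m hm hb
  refine le_trans ?_ (hD m hm)
  unfold wd
  have h1 : (0 : ℝ) < |(m : ℝ)| := by
    rw [abs_pos]; exact_mod_cast hm
  have h2 : |(m : ℝ)| ≤ 4 * 2 ^ k := by
    have : ((|m| : ℤ) : ℝ) ≤ ((4 * (2 ^ k : ℕ) : ℤ) : ℝ) := by exact_mod_cast hb
    push_cast at this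
    exact this
  have h3 : (4 * 2 ^ k : ℝ) ^ (-τ) ≤ |(m : ℝ)| ^ (-τ) :=
    Real.rpow_le_rpow_of_nonpos h1 h2 (by linarith)
  calc 2 * (c / 2 * (4 * 2 ^ k : ℝ) ^ (-τ)) = c * (4 * 2 ^ k : ℝ) ^ (-τ) := by ring
    _ ≤ c * |(m : ℝ)| ^ (-τ) := by gcongr

/-- the cocycle of level `k` -/
noncomputable def fk (α c τ : ℝ) (k : ℕ) (x : Circ) : ℝ :=
  ffun (α : Circ) (2 ^ k) (wd c τ k) (k + 1) x

/-- the transfer function of level `k` -/
noncomputable def gk (α c τ : ℝ) (k : ℕ) (x : Circ) : ℝ :=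
  gfun (α : Circ) (2 ^ k) (wd c τ k) (k + 1) x

theorem one_le_two_pow' (k : ℕ) : 1 ≤ 2 ^ k := Nat.one_le_two_pow

theorem abs_fk_le (hc : 0 < c) (hτ : 0 ≤ τ)
    (hD : ∀ n : ℤ, n ≠ 0 → c * |(n : ℝ)| ^ (-τ) ≤ ‖n • (α : Circ)‖) (k : ℕ) (x : Circ) :
    |fk α c τ k x| ≤ (k + 1) * (1 / 2 : ℝ) ^ k := by
  have h := abs_ffun_le (one_le_two_pow' k) (wd_pos hc k) (sep_wd hc hτ hD k)
    (A := (k : ℝ) + 1) (by positivity) x
  refine h.trans (le_of_eq ?_)
  push_cast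
  rw [one_div, inv_pow, div_eq_mul_inv]

theorem summable_lin {r : ℝ} (h0 : 0 ≤ r) (h1 : r < 1) :
    Summable fun k : ℕ => ((k : ℝ) + 1) * r ^ k := by
  have e1 := summable_pow_mul_geometric_of_norm_lt_one (R := ℝ) 1 (r := r)
    (by rwa [Real.norm_of_nonneg h0])
  have e2 := summable_geometric_of_lt_one h0 h1
  refine (e1.add e2).congr fun k => ?_
  simp only [pow_one]
  ring

/-- the cocycle -/
noncomputable def phi (α c τ : ℝ) (hc : 0 < c) (hτ : 0 ≤ τ)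
    (hD : ∀ n : ℤ, n ≠ 0 → c * |(n : ℝ)| ^ (-τ) ≤ ‖n • (α : Circ)‖) : C(Circ, ℝ) where
  toFun x := ∑' k, fk α c τ k x
  continuous_toFun := by
    refine continuous_tsum (fun k => continuous_ffun _)
      (summable_lin (by norm_num : (0:ℝ) ≤ 1 / 2) (by norm_num)) fun k x => ?_
    rw [Real.norm_eq_abs]
    exact abs_fk_le hc hτ hD k x

variable (hc : 0 < c) (hτ : 0 ≤ τ)
    (hD : ∀ n : ℤ, n ≠ 0 → c * |(n : ℝ)| ^ (-τ) ≤ ‖n • (α : Circ)‖)

include hc hτ hD in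
theorem summable_fk (x : Circ) : Summable fun k => fk α c τ k x :=
  Summable.of_norm_bounded (summable_lin (by norm_num : (0:ℝ) ≤ 1 / 2) (by norm_num))
    fun k => by rw [Real.norm_eq_abs]; exact abs_fk_le hc hτ hD k x

theorem hasSum_phi (x : Circ) : HasSum (fun k => fk α c τ k x) (phi α c τ hc hτ hD x) :=
  (summable_fk hc hτ hD x).hasSum

theorem holder_phi {γ : ℝ} (h0 : 0 < γ) (h1 : γ ≤ 1) (h2 : γ * τ < 1) :
    IsHolderExp γ (phi α c τ hc hτ hD) := by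
  set B : ℕ → ℝ := fun k => 2 * (((k : ℝ) + 1) * (1 / 2 : ℝ) ^ k) * (1 / wd c τ k) ^ γ with hB
  have hBsum : Summable B := by
    have e : ∀ k, B k = (2 * (c / 2) ^ (-γ) * (4 : ℝ) ^ (τ * γ)) *
        (((k : ℝ) + 1) * ((2 : ℝ) ^ (τ * γ) / 2) ^ k) := by
      intro k
      simp only [hB]
      have hp : (0 : ℝ) < 4 * 2 ^ k := by positivity
      have e1 : (1 / wd c τ k) ^ γ = (c / 2) ^ (-γ) * ((4 : ℝ) ^ (τ * γ) * ((2 : ℝ) ^ (τ * γ)) ^ k) := by
        rw [one_div, Real.inv_rpow (wd_pos hc k).le, ← Real.rpow_neg (wd_pos hc k).le]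
        unfold wd
        rw [Real.mul_rpow (by positivity) (by positivity), ← Real.rpow_mul hp.le]
        congr 1
        have : -τ * -γ = τ * γ := by ring
        rw [this, Real.mul_rpow (by norm_num) (by positivity), ← Real.rpow_natCast,
          ← Real.rpow_mul (by norm_num), ← Real.rpow_natCast, ← Real.rpow_mul (by norm_num),
          mul_comm (k : ℝ)]
      rw [e1, div_pow, div_pow, one_pow]
      ring
    have hr0 : (0 : ℝ) ≤ (2 : ℝ) ^ (τ * γ) / 2 := by positivity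
    have hr1 : (2 : ℝ) ^ (τ * γ) / 2 < 1 := by
      rw [div_lt_one (by norm_num)]
      calc (2 : ℝ) ^ (τ * γ) < (2 : ℝ) ^ (1 : ℝ) :=
            Real.rpow_lt_rpow_of_exponent_lt (by norm_num) (by linarith [mul_comm γ τ])
        _ = 2 := Real.rpow_one 2
    exact ((summable_lin hr0 hr1).mul_left _).congr fun k => (e k).symm
  refine ⟨∑' k, B k, fun x y => ?_⟩
  have hk : ∀ k, |fk α c τ k x - fk α c τ k y| ≤ B k * ‖x - y‖ ^ γ := by
    intro k
    have h := ffun_sub_le (one_le_two_pow' k) (wd_pos hc k) (sep_wd hc hτ hD k)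
      (A := (k : ℝ) + 1) (by positivity) x y
    refine h.trans ?_
    have hw := wd_pos (τ := τ) hc k
    have h3 := min_one_le_rpow (t := ‖x - y‖ / wd c τ k) (by positivity) h0 h1
    have h4 : (‖x - y‖ / wd c τ k) ^ γ = (1 / wd c τ k) ^ γ * ‖x - y‖ ^ γ := by
      rw [← Real.mul_rpow (by positivity) (norm_nonneg _)]
      congr 1
      ring
    have h5 : ((k : ℝ) + 1) / ((2 ^ k : ℕ) : ℝ) = ((k : ℝ) + 1) * (1 / 2 : ℝ) ^ k := by
      push_cast
      rw [one_div, inv_pow, div_eq_mul_inv]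
    rw [h5]
    calc 2 * (((k : ℝ) + 1) * (1 / 2 : ℝ) ^ k) * min 1 (‖x - y‖ / wd c τ k)
        ≤ 2 * (((k : ℝ) + 1) * (1 / 2 : ℝ) ^ k) * (‖x - y‖ / wd c τ k) ^ γ := by gcongr
      _ = B k * ‖x - y‖ ^ γ := by rw [h4]; simp only [hB]; ring
  have hs : HasSum (fun k => fk α c τ k x - fk α c τ k y)
      (phi α c τ hc hτ hD x - phi α c τ hc hτ hD y) :=
    (hasSum_phi hc hτ hD x).sub (hasSum_phi hc hτ hD y)
  have hS2 : Summable fun k => B k * ‖x - y‖ ^ γ := hBsum.mul_right _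
  have h6 : Summable fun k => |fk α c τ k x - fk α c τ k y| :=
    Summable.of_nonneg_of_le (fun _ => abs_nonneg _) hk hS2
  have h7 : |phi α c τ hc hτ hD x - phi α c τ hc hτ hD y| ≤
      ∑' k, |fk α c τ k x - fk α c τ k y| := by
    rw [← hs.tsum_eq]
    have := norm_tsum_le_tsum_norm (f := fun k => fk α c τ k x - fk α c τ k y)
      (by simpa only [Real.norm_eq_abs] using h6)
    simpa only [Real.norm_eq_abs] using this
  refine h7.trans ((h6.tsum_le_tsum hk hS2).trans (le_of_eq ?_))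
  rw [tsum_mul_right]

include hc hτ hD in
theorem hasSum_gk (n : ℤ) :
    HasSum (fun k => gk α c τ k (n • (α : Circ))) (bs α (phi α c τ hc hτ hD) n 0) := by
  have hshift : ∀ (k : ℕ) (n : ℤ), gk α c τ k ((n + 1) • (α : Circ)) =
      gk α c τ k (n • (α : Circ)) + fk α c τ k (n • (α : Circ)) := by
    intro k n
    have h := gfun_shift (a := (α : Circ)) (w := wd c τ k) (one_le_two_pow' k) ((k : ℝ) + 1)
      (n • (α : Circ))
    rw [add_smul, one_smul]
    unfold gk fk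
    linarith
  have hb : ∀ n : ℤ, bs α (phi α c τ hc hτ hD) (n + 1) 0 =
      bs α (phi α c τ hc hτ hD) n 0 + phi α c τ hc hτ hD (n • (α : Circ)) := by
    intro n
    rw [add_comm, bs_add, bs_one, zero_add]
  induction n using Int.induction_on with
  | zero =>
    rw [bs_zero]
    convert hasSum_zero using 2 with k
    rw [zero_smul]
    exact gfun_zero (one_le_two_pow' k) (wd_pos hc k) (sep_wd hc hτ hD k) _
  | succ n ih =>
    rw [hb]
    simp only [hshift]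
    exact ih.add (hasSum_phi hc hτ hD _)
  | pred n ih =>
    have h1 := hb (-(n : ℤ) - 1)
    rw [sub_add_cancel] at h1
    have h2 : ∀ k, gk α c τ k ((-(n : ℤ) - 1) • (α : Circ)) =
        gk α c τ k ((-(n : ℤ)) • (α : Circ)) - fk α c τ k ((-(n : ℤ) - 1) • (α : Circ)) := by
      intro k
      have := hshift k (-(n : ℤ) - 1)
      rw [sub_add_cancel] at this
      linarith
    simp only [h2]
    have h3 : bs α (phi α c τ hc hτ hD) (-(n : ℤ) - 1) 0 =
        bs α (phi α c τ hc hτ hD) (-(n : ℤ)) 0 -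
          phi α c τ hc hτ hD ((-(n : ℤ) - 1) • (α : Circ)) := by linarith
    rw [h3]
    exact ih.sub (hasSum_phi hc hτ hD _)

include hc hτ hD in
theorem bs_lower {n : ℤ} {M : ℕ} (hn : 2 ^ M ≤ n.natAbs) :
    (M : ℝ) + 1 ≤ bs α (phi α c τ hc hτ hD) n 0 := by
  have hn0 : n.natAbs ≠ 0 := by
    have : 0 < 2 ^ M := by positivity
    omega
  set K := Nat.log 2 n.natAbs with hK
  have h1 : 2 ^ K ≤ n.natAbs := Nat.pow_log_le_self 2 hn0
  have h2 : n.natAbs < 2 ^ (K + 1) := Nat.lt_pow_succ_log_self (by norm_num) _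
  have hMK : M ≤ K := by
    rw [hK]
    exact Nat.le_log_of_pow_le (by norm_num) hn
  have h3 : gk α c τ K (n • (α : Circ)) = (K : ℝ) + 1 := by
    refine gfun_orbit (one_le_two_pow' K) (wd_pos hc K) (sep_wd hc hτ hD K) _ ?_ ?_
    · rw [← Int.natCast_natAbs]
      exact_mod_cast h1
    · rw [← Int.natCast_natAbs]
      have : n.natAbs < 2 * 2 ^ K := by rw [pow_succ] at h2; omega
      exact_mod_cast this
  have h4 := le_hasSum (hasSum_gk hc hτ hD n) K fun j _ =>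
    gfun_nonneg (one_le_two_pow' j) (wd_pos hc j) (sep_wd hc hτ hD j)
      (A := (j : ℝ) + 1) (by positivity) _
  rw [h3] at h4
  have : (M : ℝ) ≤ K := by exact_mod_cast hMK
  linarith

include hc hD in
theorem irrational_of_dioph : Irrational α := by
  rw [irrational_iff_ne_rational]
  intro p q hq h
  have h1 := hD q hq
  have hq' : (q : ℝ) ≠ 0 := by exact_mod_cast hq
  have h2 : q • (α : Circ) = 0 := by
    rw [← AddCircle.coe_zsmul, AddCircle.coe_eq_zero_iff]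
    refine ⟨p, ?_⟩
    rw [h]
    simp only [zsmul_eq_mul]
    field_simp
  rw [h2, norm_zero] at h1
  have : 0 < c * |(q : ℝ)| ^ (-τ) := by positivity
  linarith

theorem besicovitch_phi : IsBesicovitch α (phi α c τ hc hτ hD) := by
  refine ⟨exists_dense (irrational_of_dioph hc hD) ?_, (0, 0), ?_⟩
  · intro R δ hδ
    obtain ⟨M, hM⟩ := exists_nat_ge R
    set δ' : ℝ := min δ (c * (2 ^ M : ℝ) ^ (-τ)) with hδ'
    have hδ'pos : 0 < δ' := lt_min hδ (by positivity)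
    obtain ⟨L, hL⟩ := exists_nat_gt (1 / δ')
    obtain ⟨j, hj, hjn⟩ := AddCircle.exists_norm_nsmul_le (α : Circ) (Nat.succ_pos L)
    have hj1 : 1 ≤ j := hj.1
    have hjδ : ‖(j : ℤ) • (α : Circ)‖ < δ' := by
      rw [natCast_zsmul]
      refine hjn.trans_lt ?_
      have h1 : 1 / δ' < (L.succ + 1 : ℕ) := by
        push_cast; linarith
      rw [div_lt_iff₀ (by positivity)]
      rw [div_lt_iff₀ hδ'pos] at h1
      linarith
    have hjne : (j : ℤ) ≠ 0 := by omega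
    have hjM : 2 ^ M ≤ ((j : ℤ)).natAbs := by
      by_contra hcon
      push Not at hcon
      rw [Int.natAbs_natCast] at hcon
      have h1 := hD j hjne
      have h2 : |((j : ℤ) : ℝ)| ≤ 2 ^ M := by
        rw [Int.cast_natCast, abs_of_nonneg (by positivity)]
        exact_mod_cast hcon.le
      have h3 : (2 ^ M : ℝ) ^ (-τ) ≤ |((j : ℤ) : ℝ)| ^ (-τ) :=
        Real.rpow_le_rpow_of_nonpos (by positivity) h2 (by linarith)
      have h4 : c * (2 ^ M : ℝ) ^ (-τ) ≤ c * |((j : ℤ) : ℝ)| ^ (-τ) := by gcongr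
      have h5 : δ' ≤ c * (2 ^ M : ℝ) ^ (-τ) := min_le_right _ _
      linarith
    refine ⟨j, hjδ.trans_le (min_le_left _ _), ⟨(-(j : ℤ)) • (α : Circ), ?_⟩, ⟨0, ?_⟩⟩
    · have h1 := bs_add (α := α) (φ := phi α c τ hc hτ hD) (j : ℤ) (-(j : ℤ)) 0
      rw [add_neg_cancel, bs_zero, zero_add] at h1
      have h2 := bs_lower hc hτ hD (n := -(j : ℤ)) (M := M) (by rwa [Int.natAbs_neg])
      linarith
    · have h2 := bs_lower hc hτ hD (n := (j : ℤ)) (M := M) hjM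
      linarith
  · intro q
    apply discrete_of_tendsto
    intro R
    obtain ⟨M, hM⟩ := exists_nat_ge R
    refine (Set.finite_Icc (-(2 ^ M : ℤ)) (2 ^ M)).subset ?_
    intro n hn
    rw [Set.mem_ofPred_eq] at hn
    by_contra hcon
    have h1 : 2 ^ M ≤ n.natAbs := by
      rw [Set.mem_Icc] at hcon
      have e : ((2 ^ M : ℕ) : ℤ) = 2 ^ M := by push_cast; rfl
      zify
      rw [le_abs]
      by_contra h2
      push Not at h2
      exact hcon ⟨by omega, by omega⟩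
    have h2 := bs_lower hc hτ hD h1
    have h3 := le_abs_self (bs α (phi α c τ hc hτ hD) n 0)
    linarith

end main

/-- The square root of two is badly approximable. -/
theorem dioph_sqrt_two (n : ℤ) (hn : n ≠ 0) :
    (1 / 4 : ℝ) * |(n : ℝ)| ^ (-(1 : ℝ)) ≤ ‖n • ((√2 : ℝ) : Circ)‖ := by
  rw [← AddCircle.coe_zsmul, UnitAddCircle.norm_eq, zsmul_eq_mul]
  set m : ℤ := round ((n : ℝ) * √2) with hm
  have hn1 : (1 : ℝ) ≤ |(n : ℝ)| := by
    have : (1 : ℤ) ≤ |n| := Int.one_le_abs hn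
    exact_mod_cast this
  have hn0 : (0 : ℝ) < |(n : ℝ)| := by linarith
  rw [Real.rpow_neg_one]
  have hs : √2 * √2 = 2 := Real.mul_self_sqrt (by norm_num)
  have hs0 : 0 ≤ √2 := Real.sqrt_nonneg 2
  have hs1 : √2 ≤ 3 / 2 := by
    rw [show (3 / 2 : ℝ) = √((3 / 2) ^ 2) from (Real.sqrt_sq (by norm_num)).symm]
    exact Real.sqrt_le_sqrt (by norm_num)
  have hint : (1 : ℝ) ≤ |2 * (n : ℝ) ^ 2 - (m : ℝ) ^ 2| := by
    have h1 : 2 * n ^ 2 - m ^ 2 ≠ 0 := by
      intro h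
      have h2 : (2 : ℝ) * (n : ℝ) ^ 2 = (m : ℝ) ^ 2 := by
        have : 2 * n ^ 2 = m ^ 2 := by linarith
        exact_mod_cast this
      have hnr : (n : ℝ) ≠ 0 := by exact_mod_cast hn
      have h3 : ((m : ℝ) / n) ^ 2 = 2 := by
        rw [div_pow, ← h2]; field_simp
      have h4 : |(m : ℝ) / n| = √2 := by
        rw [← h3, Real.sqrt_sq_eq_abs]
      have h5 : Irrational (√2) := irrational_sqrt_two
      rw [← h4] at h5
      apply h5
      refine ⟨|(m : ℚ) / n|, ?_⟩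
      push_cast
      rfl
    have h2 : (1 : ℤ) ≤ |2 * n ^ 2 - m ^ 2| := Int.one_le_abs h1
    exact_mod_cast h2
  have hfac : 2 * (n : ℝ) ^ 2 - (m : ℝ) ^ 2 = ((n : ℝ) * √2 - m) * ((n : ℝ) * √2 + m) := by
    nlinarith [hs]
  rw [hfac, abs_mul] at hint
  have hround : |(n : ℝ) * √2 - m| ≤ 1 / 2 := abs_sub_round _
  have hsum : |(n : ℝ) * √2 + m| ≤ 4 * |(n : ℝ)| := by
    have e : (n : ℝ) * √2 + m = 2 * ((n : ℝ) * √2) - ((n : ℝ) * √2 - m) := by ring
    rw [e]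
    refine (abs_sub _ _).trans ?_
    rw [abs_mul, abs_mul, abs_of_nonneg hs0, abs_two]
    nlinarith
  have h0 : 0 ≤ |(n : ℝ) * √2 - m| := abs_nonneg _
  rw [← div_eq_mul_inv, div_le_iff₀ hn0]
  nlinarith

/-- Almost every number satisfies the Diophantine condition with every exponent `τ > 1`. -/
theorem dioph_ae : ∀ᵐ α : ℝ, Irrational α ∧ ∀ τ : ℝ, 1 < τ → ∃ c : ℝ, 0 < c ∧
    ∀ n : ℤ, n ≠ 0 → c * |(n : ℝ)| ^ (-τ) ≤ ‖n • (α : Circ)‖ := by
  have hirr : ∀ᵐ α : ℝ, Irrational α := by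
    rw [MeasureTheory.ae_iff]
    have : {a : ℝ | ¬ Irrational a} = Set.range ((↑) : ℚ → ℝ) := by
      ext x
      simp [Irrational]
    rw [this]
    exact (Set.countable_range _).measure_zero _
  filter_upwards [ae_not_liouvilleWith, hirr] with α hα hi
  refine ⟨hi, fun τ hτ => ?_⟩
  have h1 := hα (1 + τ) (by linarith)
  unfold LiouvilleWith at h1
  push Not at h1
  have h2 := h1 1
  rw [eventually_atTop] at h2
  obtain ⟨n₀, hn₀⟩ := h2
  -- positivity of the norms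
  have hpos : ∀ n : ℕ, 1 ≤ n → 0 < ‖(n : ℤ) • (α : Circ)‖ := by
    intro n hn
    rw [norm_pos_iff]
    intro h
    rw [← AddCircle.coe_zsmul, AddCircle.coe_eq_zero_iff] at h
    obtain ⟨k, hk⟩ := h
    apply hi
    refine ⟨(k : ℚ) / n, ?_⟩
    have : (n : ℝ) ≠ 0 := by positivity
    simp only [zsmul_eq_mul, mul_one, Int.cast_natCast] at hk
    push_cast
    rw [hk]
    field_simp
  have hlarge : ∀ n : ℕ, n₀ ≤ n → 1 ≤ n → (n : ℝ) ^ (-τ) ≤ ‖(n : ℤ) • (α : Circ)‖ := by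
    intro n hn hn1
    rw [← AddCircle.coe_zsmul, UnitAddCircle.norm_eq, zsmul_eq_mul, Int.cast_natCast]
    set m : ℤ := round ((n : ℝ) * α)
    have hnp : (0 : ℝ) < n := by positivity
    have hne : α ≠ (m : ℝ) / n := by
      intro h
      apply hi
      exact ⟨(m : ℚ) / n, by push_cast; rw [h]⟩
    have h3 := hn₀ n hn m hne
    have h4 : |(n : ℝ) * α - m| = n * |α - m / n| := by
      rw [← abs_of_pos hnp, ← abs_mul, abs_of_pos hnp]
      congr 1
      field_simp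
    rw [h4]
    calc (n : ℝ) ^ (-τ) = n * (1 / (n : ℝ) ^ (1 + τ)) := by
          rw [Real.rpow_add hnp, Real.rpow_one, Real.rpow_neg hnp.le]
          field_simp
      _ ≤ n * |α - m / n| := by gcongr
  -- the constant
  obtain ⟨c₀, hc₀, hc₀'⟩ : ∃ c₀ : ℝ, 0 < c₀ ∧ ∀ n : ℕ, 1 ≤ n → n ≤ n₀ →
      c₀ ≤ ‖(n : ℤ) • (α : Circ)‖ := by
    rcases (Finset.Icc 1 n₀).eq_empty_or_nonempty with he | hne
    · refine ⟨1, one_pos, fun n h1 h2 => ?_⟩
      have : n ∈ Finset.Icc 1 n₀ := Finset.mem_Icc.2 ⟨h1, h2⟩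
      rw [he] at this
      simp at this
    · obtain ⟨j, hj, hmin⟩ := Finset.exists_min_image (Finset.Icc 1 n₀)
        (fun n : ℕ => ‖(n : ℤ) • (α : Circ)‖) hne
      exact ⟨_, hpos j (Finset.mem_Icc.1 hj).1, fun n h1 h2 =>
        hmin n (Finset.mem_Icc.2 ⟨h1, h2⟩)⟩
  refine ⟨min c₀ 1, lt_min hc₀ one_pos, fun n hn => ?_⟩
  have hnat : ‖n • (α : Circ)‖ = ‖((n.natAbs : ℕ) : ℤ) • (α : Circ)‖ := by
    rcases Int.natAbs_eq n with h | h
    · rw [← h]
    · conv_lhs => rw [h]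
      rw [neg_smul, norm_neg]
  have habs : |(n : ℝ)| = (n.natAbs : ℝ) := by
    rw [Nat.cast_natAbs]; push_cast; rfl
  rw [hnat, habs]
  have hn1 : 1 ≤ n.natAbs := by
    have := Int.natAbs_ne_zero.2 hn
    omega
  have hge1 : (1 : ℝ) ≤ (n.natAbs : ℝ) := by exact_mod_cast hn1
  have hle1 : ((n.natAbs : ℕ) : ℝ) ^ (-τ) ≤ 1 :=
    Real.rpow_le_one_of_one_le_of_nonpos hge1 (by linarith)
  have hnn : (0 : ℝ) ≤ ((n.natAbs : ℕ) : ℝ) ^ (-τ) := by positivity
  rcases le_total n.natAbs n₀ with hle | hle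
  · calc min c₀ 1 * ((n.natAbs : ℕ) : ℝ) ^ (-τ) ≤ c₀ * 1 :=
          mul_le_mul (min_le_left _ _) hle1 hnn hc₀.le
      _ = c₀ := mul_one _
      _ ≤ _ := hc₀' _ hn1 hle
  · calc min c₀ 1 * ((n.natAbs : ℕ) : ℝ) ^ (-τ) ≤ 1 * ((n.natAbs : ℕ) : ℝ) ^ (-τ) :=
          mul_le_mul_of_nonneg_right (min_le_right _ _) hnn
      _ = _ := one_mul _
      _ ≤ _ := hlarge _ hle hn1

end Pool.Agent.H65BC
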